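import Mathlib

set_option autoImplicit false
set_option linter.unusedSectionVars false

open Topology Filter Set

namespace Pool.Agent.Work.MP_43aaf1_gt

/-- The underlying set of the doubled bundle: pairs (fibre coordinate, base coordinate),
in two layers.  The function `φ` (the twist) enters only through the topology. -/
@[ext] structure DM {F : Type} (φ : ℝ → F) : Type where
  fib : F
  pos : ℝ
  lay : Bool

variable {F : Type} [AddCommGroup F] [TopologicalSpace F] [IsTopologicalAddGroup F]
variable {φ : ℝ → F}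

/-- chart of the bottom layer -/
def c0 (φ : ℝ → F) (p : F × ℝ) : DM φ := ⟨p.1, p.2, false⟩

/-- chart around the fibre over `x` in the top layer -/
noncomputable def c1 (φ : ℝ → F) (x : ℝ) (p : F × ℝ) : DM φ :=
  if p.2 = 0 then ⟨p.1, x, true⟩ else ⟨p.1 + φ p.2, x + p.2, false⟩

instance instTop : TopologicalSpace (DM φ) where
  IsOpen U := IsOpen (c0 φ ⁻¹' U) ∧ ∀ x, IsOpen (c1 φ x ⁻¹' U)
  isOpen_univ := by simp
  isOpen_inter := by
    rintro U V ⟨h1, h2⟩ ⟨h3, h4⟩
    refine ⟨?_, fun x => ?_⟩
    · rw [preimage_inter]; exact h1.inter h3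
    · rw [preimage_inter]; exact (h2 x).inter (h4 x)
  isOpen_sUnion := by
    intro s hs
    refine ⟨?_, fun x => ?_⟩
    · rw [preimage_sUnion]; exact isOpen_biUnion fun t ht => (hs t ht).1
    · rw [preimage_sUnion]; exact isOpen_biUnion fun t ht => (hs t ht).2 x

lemma isOpen_iff' {U : Set (DM φ)} :
    IsOpen U ↔ IsOpen (c0 φ ⁻¹' U) ∧ ∀ x, IsOpen (c1 φ x ⁻¹' U) := Iff.rfl

lemma continuous_c0 : Continuous (c0 φ) := ⟨fun _ hU => hU.1⟩

lemma continuous_c1 (x : ℝ) : Continuous (c1 φ x) := ⟨fun _ hU => hU.2 x⟩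

lemma continuous_iff' {Y : Type} [TopologicalSpace Y] {g : DM φ → Y} :
    Continuous g ↔ Continuous (g ∘ c0 φ) ∧ ∀ x, Continuous (g ∘ c1 φ x) := by
  constructor
  · intro h
    exact ⟨h.comp continuous_c0, fun x => h.comp (continuous_c1 x)⟩
  · rintro ⟨h1, h2⟩
    refine ⟨fun U hU => ?_⟩
    exact ⟨hU.preimage h1, fun x => hU.preimage (h2 x)⟩

lemma c0_injective : Function.Injective (c0 φ) := by
  rintro ⟨a, b⟩ ⟨c, d⟩ h
  simp only [c0, DM.mk.injEq, and_true] at h
  exact Prod.ext h.1 h.2

lemma c1_injective (x : ℝ) : Function.Injective (c1 φ x) := by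
  rintro ⟨a, b⟩ ⟨c, d⟩ h
  by_cases hb : b = 0 <;> by_cases hd : d = 0 <;> simp [c1, hb, hd] at h
  · simp [hb, hd, h]
  · obtain ⟨h1, h2⟩ := h
    subst h2
    simp at h1
    simp [h1]

lemma isOpenMap_c0 (hφ : ContinuousOn φ {0}ᶜ) : IsOpenMap (c0 φ) := by
  intro V hV
  refine ⟨?_, fun x => ?_⟩
  · rw [preimage_image_eq _ c0_injective]; exact hV
  · have : c1 φ x ⁻¹' (c0 φ '' V)
        = (fun p : F × ℝ => p.2) ⁻¹' {0}ᶜ ∩ (fun p : F × ℝ => (p.1 + φ p.2, x + p.2)) ⁻¹' V := by
      ext ⟨a, b⟩
      simp only [mem_preimage, mem_image, c0, c1, mem_inter_iff, mem_compl_iff, mem_singleton_iff,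
        Prod.exists]
      by_cases hb : b = 0
      · simp [hb]
      · simp only [hb, if_false, DM.mk.injEq, and_true, not_false_eq_true, true_and]
        constructor
        · rintro ⟨a', b', h, rfl, rfl⟩; exact h
        · intro h; exact ⟨_, _, h, rfl, rfl⟩
    rw [this]
    have ho : IsOpen ((fun p : F × ℝ => p.2) ⁻¹' ({0}ᶜ : Set ℝ)) :=
      isOpen_compl_singleton.preimage continuous_snd
    refine ContinuousOn.isOpen_inter_preimage ?_ ho hV
    refine ContinuousOn.prodMk (continuousOn_fst.add ?_) (by fun_prop)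
    exact hφ.comp continuousOn_snd (fun p hp => hp)

lemma isOpenMap_c1 (hφ : ContinuousOn φ {0}ᶜ) (x : ℝ) : IsOpenMap (c1 φ x) := by
  intro V hV
  refine ⟨?_, fun y => ?_⟩
  · have : c0 φ ⁻¹' (c1 φ x '' V)
        = (fun p : F × ℝ => p.2 - x) ⁻¹' {0}ᶜ ∩
          (fun p : F × ℝ => (p.1 - φ (p.2 - x), p.2 - x)) ⁻¹' V := by
      ext ⟨a, b⟩
      simp only [mem_preimage, mem_image, c0, c1, mem_inter_iff, mem_compl_iff, mem_singleton_iff,
        Prod.exists]
      constructor
      · rintro ⟨a', b', h, h'⟩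
        by_cases hb : b' = 0
        · simp [hb] at h'
        · simp only [hb, if_false, DM.mk.injEq, and_true] at h'
          obtain ⟨rfl, rfl⟩ := h'
          simp [hb, h]
      · rintro ⟨h1, h2⟩
        refine ⟨_, _, h2, ?_⟩
        simp [h1]
    rw [this]
    have ho : IsOpen ((fun p : F × ℝ => p.2 - x) ⁻¹' ({0}ᶜ : Set ℝ)) :=
      isOpen_compl_singleton.preimage (by fun_prop)
    refine ContinuousOn.isOpen_inter_preimage ?_ ho hV
    refine ContinuousOn.prodMk (continuousOn_fst.sub ?_) (by fun_prop)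
    exact hφ.comp (by fun_prop) (fun p hp => hp)
  · by_cases hxy : y = x
    · subst hxy
      rw [preimage_image_eq _ (c1_injective y)]; exact hV
    have : c1 φ y ⁻¹' (c1 φ x '' V)
        = ((fun p : F × ℝ => p.2) ⁻¹' {0}ᶜ ∩ (fun p : F × ℝ => y + p.2 - x) ⁻¹' {0}ᶜ) ∩
          (fun p : F × ℝ => (p.1 + φ p.2 - φ (y + p.2 - x), y + p.2 - x)) ⁻¹' V := by
      ext ⟨a, b⟩
      simp only [mem_preimage, mem_image, c1, mem_inter_iff, mem_compl_iff, mem_singleton_iff,
        Prod.exists]
      constructor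
      · rintro ⟨a', b', h, h'⟩
        by_cases hb' : b' = 0
        · by_cases hb : b = 0
          · simp [hb, hb'] at h'
            exact absurd h'.2.symm hxy
          · simp [hb, hb'] at h'
        · by_cases hb : b = 0
          · simp [hb, hb'] at h'
          · simp only [hb, hb', if_false, DM.mk.injEq, and_true] at h'
            obtain ⟨h1, h2⟩ := h'
            have : b' = y + b - x := by linarith
            subst this
            rw [← h1]
            simp only [add_sub_cancel_right]
            exact ⟨⟨hb, hb'⟩, h⟩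
      · rintro ⟨⟨h0, h1⟩, h2⟩
        refine ⟨_, _, h2, ?_⟩
        simp [h1, h0]
    rw [this]
    have ho : IsOpen ((fun p : F × ℝ => p.2) ⁻¹' ({0}ᶜ : Set ℝ) ∩
        (fun p : F × ℝ => y + p.2 - x) ⁻¹' {0}ᶜ) :=
      (isOpen_compl_singleton.preimage (by fun_prop)).inter
        (isOpen_compl_singleton.preimage (by fun_prop))
    refine ContinuousOn.isOpen_inter_preimage ?_ ho hV
    refine ContinuousOn.prodMk ((continuousOn_fst.add ?_).sub ?_) (by fun_prop)
    · exact hφ.comp continuousOn_snd (fun p hp => hp.1)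
    · exact hφ.comp (by fun_prop) (fun p hp => hp.2)

lemma isOpenEmbedding_c0 (hφ : ContinuousOn φ {0}ᶜ) : IsOpenEmbedding (c0 φ) :=
  .of_continuous_injective_isOpenMap continuous_c0 c0_injective (isOpenMap_c0 hφ)

lemma isOpenEmbedding_c1 (hφ : ContinuousOn φ {0}ᶜ) (x : ℝ) : IsOpenEmbedding (c1 φ x) :=
  .of_continuous_injective_isOpenMap (continuous_c1 x) (c1_injective x) (isOpenMap_c1 hφ x)

lemma continuous_pos : Continuous (DM.pos : DM φ → ℝ) := by
  rw [continuous_iff']
  refine ⟨?_, fun x => ?_⟩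
  · exact continuous_snd
  · have : (DM.pos : DM φ → ℝ) ∘ c1 φ x = fun p => x + p.2 := by
      ext ⟨a, b⟩
      by_cases hb : b = 0 <;> simp [c1, hb]
    rw [this]; fun_prop


/-- translations -/
def trans (a : F) (b : ℝ) (m : DM φ) : DM φ := ⟨m.fib + a, m.pos + b, m.lay⟩

lemma continuous_trans (a : F) (b : ℝ) : Continuous (trans a b : DM φ → DM φ) := by
  rw [continuous_iff']
  refine ⟨?_, fun x => ?_⟩
  · have : (trans a b : DM φ → DM φ) ∘ c0 φ = c0 φ ∘ fun p => (p.1 + a, p.2 + b) := by
      ext1 ⟨u, v⟩; rfl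
    rw [this]
    exact continuous_c0.comp (by fun_prop)
  · have : (trans a b : DM φ → DM φ) ∘ c1 φ x = c1 φ (x + b) ∘ fun p => (p.1 + a, p.2) := by
      ext1 ⟨u, v⟩
      by_cases hv : v = 0
      · simp [c1, trans, hv]
      · simp only [Function.comp, c1, trans, hv, if_false, DM.mk.injEq, and_true]
        exact ⟨by abel, by ring⟩
    rw [this]
    exact (continuous_c1 _).comp (by fun_prop)

/-- translations as homeomorphisms -/
def transHomeo (a : F) (b : ℝ) : DM φ ≃ₜ DM φ where
  toFun := trans a b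
  invFun := trans (-a) (-b)
  left_inv := by rintro ⟨u, v, w⟩; simp [trans]
  right_inv := by rintro ⟨u, v, w⟩; simp [trans]
  continuous_toFun := continuous_trans a b
  continuous_invFun := continuous_trans (-a) (-b)

/-- swap of the two fibres over `0`, combined with a fibrewise translation by `ψ` over the
base map `h` elsewhere -/
noncomputable def swp (h : ℝ → ℝ) (ψ : ℝ → F) (m : DM φ) : DM φ :=
  if m.pos = 0 then ⟨m.fib, 0, !m.lay⟩ else ⟨m.fib + ψ m.pos, h m.pos, m.lay⟩

lemma continuous_update {e : ℝ → F} {a : F} (he : ContinuousOn e {0}ᶜ)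
    (h0 : Tendsto e (𝓝[≠] 0) (𝓝 a)) : Continuous (Function.update e 0 a) := by
  rw [continuous_iff_continuousAt]
  intro x
  by_cases hx : x = 0
  · subst hx
    exact continuousAt_update_same.2 h0
  · rw [continuousAt_update_of_ne hx]
    exact he.continuousAt (isOpen_compl_singleton.mem_nhds hx)

lemma continuous_swp {h : ℝ → ℝ} {ψ : ℝ → F} (hφ : ContinuousOn φ {0}ᶜ)
    (hh : Continuous h) (hinj : Function.Injective h) (h0 : h 0 = 0)
    (hψ : ContinuousOn ψ {0}ᶜ)
    (H0 : Tendsto (fun t => ψ t - φ (h t)) (𝓝[≠] 0) (𝓝 0))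
    (H1 : Tendsto (fun t => ψ t + φ t) (𝓝[≠] 0) (𝓝 0))
    (H2 : ∀ x, x ≠ 0 → Tendsto (fun t => φ (h (x + t) - h x) - φ t) (𝓝[≠] 0) (𝓝 0)) :
    Continuous (swp h ψ : DM φ → DM φ) := by
  have hne : ∀ t, t ≠ 0 → h t ≠ 0 := fun t ht h' => ht (hinj (by rw [h', h0]))
  have hA : Continuous ((swp h ψ : DM φ → DM φ) ∘ c0 φ) := by
    have hc : ContinuousOn (fun t => ψ t - φ (h t)) {0}ᶜ :=
      hψ.sub (hφ.comp hh.continuousOn (fun t ht => hne t ht))
    have hu := continuous_update hc H0
    have : (swp h ψ : DM φ → DM φ) ∘ c0 φ = c1 φ 0 ∘ fun p =>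
        (p.1 + Function.update (fun t => ψ t - φ (h t)) 0 0 p.2, h p.2) := by
      ext1 ⟨u, v⟩
      by_cases hv : v = 0
      · simp [c0, c1, swp, hv, h0]
      · simp only [Function.comp, c0, c1, swp, hv, if_false, hne v hv, Function.update_of_ne, ne_eq,
          not_false_eq_true, zero_add, DM.mk.injEq, and_true]
        abel
    rw [this]
    refine (continuous_c1 _).comp ((continuous_fst.add (hu.comp continuous_snd)).prodMk ?_)
    exact hh.comp continuous_snd
  rw [continuous_iff']
  refine ⟨hA, fun x => ?_⟩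
  by_cases hx : x = 0
  · subst hx
    have hc : ContinuousOn (fun t => ψ t + φ t) {0}ᶜ := hψ.add hφ
    have hu := continuous_update hc H1
    have : (swp h ψ : DM φ → DM φ) ∘ c1 φ 0 = c0 φ ∘ fun p =>
        (p.1 + Function.update (fun t => ψ t + φ t) 0 0 p.2, h p.2) := by
      ext1 ⟨u, v⟩
      by_cases hv : v = 0
      · simp [c0, c1, swp, hv, h0]
      · simp only [Function.comp, c0, c1, swp, hv, if_false, Function.update_of_ne, ne_eq,
          not_false_eq_true, zero_add, DM.mk.injEq, and_true]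
        abel
    rw [this]
    refine continuous_c0.comp ((continuous_fst.add (hu.comp continuous_snd)).prodMk ?_)
    exact hh.comp continuous_snd
  · rw [continuous_iff_continuousAt]
    rintro ⟨u, v⟩
    by_cases hv : v = 0
    · subst hv
      -- near `t = 0`, where `x + t ≠ 0`
      have hc : ContinuousOn (fun t => φ (h (x + t) - h x) - φ t) {0}ᶜ := by
        refine (hφ.comp (by fun_prop) (fun t ht => ?_)).sub hφ
        simp only [mem_compl_iff, mem_singleton_iff] at ht ⊢
        intro h'
        apply ht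
        have := hinj (sub_eq_zero.1 h')
        linarith
      have hu := continuous_update hc (H2 x hx)
      have hev : ∀ᶠ p : F × ℝ in 𝓝 (u, 0), x + p.2 ≠ 0 := by
        have : Continuous fun p : F × ℝ => x + p.2 := by fun_prop
        exact this.continuousAt.eventually_ne (by simpa using hx)
      have hG : ContinuousAt (fun p : F × ℝ =>
          (p.1 + ψ (x + p.2) - Function.update (fun t => φ (h (x + t) - h x) - φ t) 0 0 p.2,
            h (x + p.2) - h x)) (u, 0) := by
        refine ContinuousAt.prodMk ((continuousAt_fst.add ?_).sub ?_) ?_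
        · have h1 : ContinuousAt ψ (x + (u, (0:ℝ)).2) := by
            simp only [add_zero]
            exact hψ.continuousAt (isOpen_compl_singleton.mem_nhds hx)
          exact ContinuousAt.comp (f := fun p : F × ℝ => x + p.2) h1 (by fun_prop)
        · exact (hu.comp continuous_snd).continuousAt
        · fun_prop
      have hcomp := ContinuousAt.comp (x := ((u, 0) : F × ℝ))
        (g := c1 φ (h x)) (continuous_c1 _).continuousAt hG
      refine hcomp.congr ?_
      filter_upwards [hev]
      rintro ⟨a, b⟩ hb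
      simp only at hb
      by_cases hb0 : b = 0
      · subst hb0
        simp [c1, swp, hx]
      · have hne2 : h (x + b) - h x ≠ 0 := by
          intro h'
          apply hb0
          have := hinj (sub_eq_zero.1 h')
          linarith
        simp only [Function.comp, c1, swp, hb0, if_false, hb, hne2, Function.update_of_ne, ne_eq,
          not_false_eq_true, DM.mk.injEq, and_true]
        constructor
        · abel
        · ring
    · -- near `t ≠ 0` we are in the bottom layer
      have hev : ∀ᶠ p : F × ℝ in 𝓝 (u, v), p.2 ≠ 0 := by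
        exact continuousAt_snd.eventually_ne hv
      have hG : ContinuousAt (fun p : F × ℝ => (p.1 + φ p.2, x + p.2)) (u, v) := by
        refine ContinuousAt.prodMk (continuousAt_fst.add ?_) (by fun_prop)
        exact ContinuousAt.comp (f := fun p : F × ℝ => p.2)
          (hφ.continuousAt (isOpen_compl_singleton.mem_nhds hv)) (by fun_prop)
      have hcomp := ContinuousAt.comp (x := ((u, v) : F × ℝ))
        (g := (swp h ψ : DM φ → DM φ) ∘ c0 φ) hA.continuousAt hG
      refine hcomp.congr ?_
      filter_upwards [hev]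
      rintro ⟨a, b⟩ hb
      simp only at hb
      simp only [Function.comp, c0, c1, hb, if_false]

end Pool.Agent.Work.MP_43aaf1_gt
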