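import Pool.Agent.Work.MP_43aaf1_gt.Doubled

set_option autoImplicit false
set_option linter.unusedSectionVars false

open Topology Filter Set

namespace Pool.Agent.Work.MP_43aaf1_gt

variable {F : Type} [AddCommGroup F] [TopologicalSpace F] [IsTopologicalAddGroup F]
variable {φ : ℝ → F}

/-- The hypotheses on the twist function. -/
structure GoodTwist (φ : ℝ → F) : Prop where
  cont : ContinuousOn φ {0}ᶜ
  surj : ∀ (f : F) (ε : ℝ), 0 < ε → ∃ t, t ≠ 0 ∧ |t| < ε ∧ φ t = f
  ex_swap : ∃ h : ℝ ≃ₜ ℝ, h 0 = 0 ∧ Tendsto (fun t => φ (h t) + φ t) (𝓝[≠] 0) (𝓝 0) ∧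
    ∀ x, x ≠ 0 → Tendsto (fun t => φ (h (x + t) - h x) - φ t) (𝓝[≠] 0) (𝓝 0)

lemma tendsto_homeo_punctured (h : ℝ ≃ₜ ℝ) (x : ℝ) :
    Tendsto (fun t => h (x + t) - h x) (𝓝[≠] 0) (𝓝[≠] 0) := by
  refine tendsto_nhdsWithin_iff.2 ⟨?_, ?_⟩
  · have : Continuous fun t => h (x + t) - h x := by fun_prop
    have h2 := this.tendsto 0
    simp only [add_zero, sub_self] at h2
    exact h2.mono_left nhdsWithin_le_nhds
  · filter_upwards [self_mem_nhdsWithin] with t ht h'
    apply ht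
    have := h.injective (sub_eq_zero.1 h')
    simp only [mem_singleton_iff]
    linarith

lemma ex_swap_homeo (hφ : GoodTwist φ) :
    ∃ S : DM φ ≃ₜ DM φ, ∀ f i, S ⟨f, 0, i⟩ = ⟨f, 0, !i⟩ := by
  obtain ⟨h, h0, K1, K2⟩ := hφ.ex_swap
  have hs0 : h.symm 0 = 0 := by
    have := h.symm_apply_apply 0
    rwa [h0] at this
  have hne : ∀ t, t ≠ 0 → h t ≠ 0 := fun t ht h' => ht (h.injective (by rw [h', h0]))
  have hne' : ∀ t, t ≠ 0 → h.symm t ≠ 0 := fun t ht h' => ht (h.symm.injective (by rw [h', hs0]))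
  have c1 : Continuous (swp h (fun t => -φ t) : DM φ → DM φ) := by
    refine continuous_swp hφ.cont h.continuous h.injective h0 hφ.cont.neg ?_ ?_ K2
    · have := K1.neg
      simp only [neg_zero] at this
      refine this.congr (fun t => by abel)
    · simpa using tendsto_const_nhds
  have c2 : Continuous (swp h.symm (fun t => φ (h.symm t)) : DM φ → DM φ) := by
    refine continuous_swp hφ.cont h.symm.continuous h.symm.injective hs0
      (hφ.cont.comp h.symm.continuous.continuousOn (fun t ht => hne' t ht))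
      (by simpa using tendsto_const_nhds) ?_ ?_
    · have := K1.comp (tendsto_homeo_punctured h.symm 0)
      simp only [zero_add, hs0, sub_zero, Function.comp_def, Homeomorph.apply_symm_apply] at this
      exact this.congr (fun t => by abel)
    · intro x hx
      have := ((K2 (h.symm x) (hne' x hx)).comp (tendsto_homeo_punctured h.symm x)).neg
      simp only [neg_zero, Function.comp_def, add_sub_cancel, Homeomorph.apply_symm_apply,
        add_sub_cancel_left] at this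
      exact this.congr (fun t => by abel)
  refine ⟨⟨⟨swp h (fun t => -φ t), swp h.symm (fun t => φ (h.symm t)), ?_, ?_⟩, c1, c2⟩, ?_⟩
  · rintro ⟨u, v, w⟩
    by_cases hv : v = 0
    · simp [swp, hv]
    · simp [swp, hv, hne]
  · rintro ⟨u, v, w⟩
    by_cases hv : v = 0
    · simp [swp, hv]
    · simp [swp, hv, hne']
  · intro f i
    simp [swp]

lemma homogeneous (hφ : GoodTwist φ) (x y : DM φ) : ∃ g : DM φ ≃ₜ DM φ, g x = y := by
  obtain ⟨S, hS⟩ := ex_swap_homeo hφ
  -- move everything to `⟨0, 0, false⟩`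
  have key : ∀ x : DM φ, ∃ g : DM φ ≃ₜ DM φ, g x = ⟨0, 0, false⟩ := by
    rintro ⟨u, v, w⟩
    have h1 : transHomeo (-u) (-v) (⟨u, v, w⟩ : DM φ) = ⟨0, 0, w⟩ := by
      simp [transHomeo, trans]
    cases w with
    | false => exact ⟨_, h1⟩
    | true =>
      refine ⟨(transHomeo (-u) (-v)).trans S, ?_⟩
      rw [Homeomorph.trans_apply, h1, hS]
      rfl
  obtain ⟨g1, h1⟩ := key x
  obtain ⟨g2, h2⟩ := key y
  refine ⟨g1.trans g2.symm, ?_⟩
  rw [Homeomorph.trans_apply, h1, ← h2, Homeomorph.symm_apply_apply]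

/-- The set of points that cannot be separated from `z`. -/
lemma nonsep (hφ : GoodTwist φ) (f g : F) (x : ℝ) (U V : Set (DM φ)) (hU : IsOpen U)
    (hV : IsOpen V) (h1 : (⟨f, x, false⟩ : DM φ) ∈ U) (h2 : (⟨g, x, true⟩ : DM φ) ∈ V) :
    (U ∩ V).Nonempty := by
  have hU' : ∀ᶠ t in 𝓝 (0:ℝ), (⟨f, x + t, false⟩ : DM φ) ∈ U := by
    have hc : Continuous fun t : ℝ => (c0 φ (f, x + t)) := continuous_c0.comp (by fun_prop)
    have := hc.continuousAt (x := 0) |>.eventually (hU.mem_nhds (by simpa [c0] using h1))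
    exact this
  have hV' : ∀ᶠ t in 𝓝 (0:ℝ), (c1 φ x (g, t)) ∈ V := by
    have hc : Continuous fun t : ℝ => (c1 φ x (g, t)) := (continuous_c1 x).comp (by fun_prop)
    exact hc.continuousAt (x := 0) |>.eventually (hV.mem_nhds (by simpa [c1] using h2))
  obtain ⟨ε, hε, hball⟩ := Metric.eventually_nhds_iff.1 (hU'.and hV')
  obtain ⟨t, ht0, htε, ht⟩ := hφ.surj (f - g) ε hε
  obtain ⟨h3, h4⟩ := hball (y := t) (by simpa using htε)
  refine ⟨⟨f, x + t, false⟩, h3, ?_⟩
  simpa [c1, ht0, ht] using h4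

lemma sep_of_chart {X Y : Type} [TopologicalSpace X] [TopologicalSpace Y] [T2Space X]
    {c : X → Y} (hc : IsOpenEmbedding c) {a b : X} (hab : a ≠ b) :
    ∃ U V : Set Y, IsOpen U ∧ IsOpen V ∧ c a ∈ U ∧ c b ∈ V ∧ U ∩ V = ∅ := by
  obtain ⟨U, V, hU, hV, ha, hb, hUV⟩ := t2_separation hab
  refine ⟨c '' U, c '' V, hc.isOpenMap U hU, hc.isOpenMap V hV, mem_image_of_mem _ ha,
    mem_image_of_mem _ hb, ?_⟩
  rw [← image_inter hc.injective, hUV.inter_eq, image_empty]

/-- `z` and `y` cannot be separated iff they lie over the same base point in different layers. -/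
lemma nonsep_iff [T2Space F] (hφ : GoodTwist φ) (y z : DM φ) :
    (y ≠ z ∧ ∀ U V : Set (DM φ), IsOpen U → IsOpen V → y ∈ U → z ∈ V → (U ∩ V).Nonempty) ↔
      (y.pos = z.pos ∧ y.lay = !z.lay) := by
  constructor
  · rintro ⟨hne, hns⟩
    have hpos : y.pos = z.pos := by
      by_contra hp
      obtain ⟨U, V, hU, hV, ha, hb, hUV⟩ := t2_separation hp
      obtain ⟨w, hw1, hw2⟩ := hns _ _ (hU.preimage continuous_pos) (hV.preimage continuous_pos)
        ha hb
      exact Set.disjoint_left.1 hUV hw1 hw2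
    refine ⟨hpos, ?_⟩
    obtain ⟨a, b, i⟩ := y
    obtain ⟨a', b', i'⟩ := z
    simp only at hpos
    subst hpos
    by_contra hlay
    have hii : i = i' := by
      cases i <;> cases i' <;> simp_all
    subst hii
    have haa : a ≠ a' := fun h => hne (by rw [h])
    cases i with
    | false =>
      obtain ⟨U, V, hU, hV, ha, hb, hUV⟩ := sep_of_chart (isOpenEmbedding_c0 hφ.cont)
        (a := (a, b)) (b := (a', b)) (fun h => haa (Prod.ext_iff.1 h).1)
      have := hns U V hU hV (by simpa [c0] using ha) (by simpa [c0] using hb)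
      rw [hUV] at this
      exact Set.not_nonempty_empty this
    | true =>
      obtain ⟨U, V, hU, hV, ha, hb, hUV⟩ := sep_of_chart (isOpenEmbedding_c1 hφ.cont b)
        (a := (a, 0)) (b := (a', 0)) (fun h => haa (Prod.ext_iff.1 h).1)
      have := hns U V hU hV (by simpa [c1] using ha) (by simpa [c1] using hb)
      rw [hUV] at this
      exact Set.not_nonempty_empty this
  · obtain ⟨a, b, i⟩ := y
    obtain ⟨a', b', i'⟩ := z
    rintro ⟨h1, h2⟩
    simp only at h1 h2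
    subst h1 h2
    refine ⟨fun h => ?_, ?_⟩
    · simp at h
    intro U V hU hV hy hz
    cases i' with
    | false =>
      rw [inter_comm]
      exact nonsep hφ a' a b V U hV hU hz (by simpa using hy)
    | true => exact nonsep hφ a a' b U V hU hV (by simpa using hy) hz

/-- The set of points that cannot be separated from `z` is homeomorphic to the fibre. -/
lemma nh_homeo [T2Space F] (hφ : GoodTwist φ) (z : DM φ) :
    Nonempty ({y : DM φ | y ≠ z ∧ ∀ U V : Set (DM φ), IsOpen U → IsOpen V → y ∈ U → z ∈ V →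
      (U ∩ V).Nonempty} ≃ₜ F) := by
  have hset : {y : DM φ | y ≠ z ∧ ∀ U V : Set (DM φ), IsOpen U → IsOpen V → y ∈ U → z ∈ V →
      (U ∩ V).Nonempty} = {y : DM φ | y.pos = z.pos ∧ y.lay = !z.lay} := by
    ext y
    exact nonsep_iff hφ y z
  rw [hset]
  obtain ⟨a, b, i⟩ := z
  simp only
  cases i with
  | false =>
    have hemb : IsEmbedding (fun f : F => c1 φ b (f, 0)) :=
      (isOpenEmbedding_c1 hφ.cont b).isEmbedding.comp (isEmbedding_prodMkLeft 0)
    have hr : {y : DM φ | y.pos = b ∧ y.lay = !false} = range (fun f : F => c1 φ b (f, 0)) := by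
      ext ⟨u, v, w⟩
      simp only [Bool.not_false, mem_ofPred_eq, c1, if_true, mem_range, DM.mk.injEq]
      constructor
      · rintro ⟨rfl, rfl⟩; exact ⟨u, rfl, rfl, rfl⟩
      · rintro ⟨f, rfl, rfl, rfl⟩; exact ⟨rfl, rfl⟩
    rw [hr]
    exact ⟨hemb.toHomeomorph.symm⟩
  | true =>
    have hemb : IsEmbedding (fun f : F => c0 φ (f, b)) :=
      (isOpenEmbedding_c0 hφ.cont).isEmbedding.comp (isEmbedding_prodMkLeft b)
    have hr : {y : DM φ | y.pos = b ∧ y.lay = !true} = range (fun f : F => c0 φ (f, b)) := by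
      ext ⟨u, v, w⟩
      simp only [Bool.not_true, mem_ofPred_eq, c0, mem_range, DM.mk.injEq]
      constructor
      · rintro ⟨rfl, rfl⟩; exact ⟨u, rfl, rfl, rfl⟩
      · rintro ⟨f, rfl, rfl, rfl⟩; exact ⟨rfl, rfl⟩
    rw [hr]
    exact ⟨hemb.toHomeomorph.symm⟩

lemma not_t2 (hφ : GoodTwist φ) : ¬ T2Space (DM φ) := by
  intro h
  obtain ⟨U, V, hU, hV, ha, hb, hUV⟩ := t2_separation
    (show (⟨0, 0, false⟩ : DM φ) ≠ ⟨0, 0, true⟩ by simp)
  obtain ⟨w, hw1, hw2⟩ := nonsep hφ 0 0 0 U V hU hV ha hb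
  exact Set.disjoint_left.1 hUV hw1 hw2

lemma connected [ConnectedSpace F] (hφ : GoodTwist φ) : ConnectedSpace (DM φ) := by
  have hd : DenseRange (c0 φ) := by
    rintro ⟨u, v, w⟩
    cases w with
    | false => exact subset_closure ⟨(u, v), rfl⟩
    | true =>
      rw [mem_closure_iff]
      intro V hV hmem
      obtain ⟨w, hw1, hw2⟩ := nonsep hφ u u v _ V (isOpenMap_c0 hφ.cont _ isOpen_univ) hV
        ⟨(u, v), mem_univ _, rfl⟩ hmem
      rw [image_univ] at hw1
      exact ⟨w, hw2, hw1⟩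
  have : PreconnectedSpace (DM φ) := hd.preconnectedSpace continuous_c0
  exact ⟨⟨⟨0, 0, false⟩⟩⟩

/-- every point lies in the image of an open embedding of the plane -/
lemma locally_euclidean (hφ : GoodTwist φ)
    (hF : ∀ f : F, ∃ e : ℝ → F, IsOpenEmbedding e ∧ f ∈ range e) (z : DM φ) :
    ∃ U : Set (DM φ), IsOpen U ∧ z ∈ U ∧ Nonempty (U ≃ₜ EuclideanSpace ℝ (Fin 2)) := by
  have hplane : Nonempty (EuclideanSpace ℝ (Fin 2) ≃ₜ ℝ × ℝ) := by
    refine ⟨?_⟩
    exact (EuclideanSpace.equiv (Fin 2) ℝ).toHomeomorph.trans (Homeomorph.finTwoArrow)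
  obtain ⟨P⟩ := hplane
  have key : ∀ c : F × ℝ → DM φ, IsOpenEmbedding c → z ∈ range c →
      ∃ U : Set (DM φ), IsOpen U ∧ z ∈ U ∧ Nonempty (U ≃ₜ EuclideanSpace ℝ (Fin 2)) := by
    rintro c hc ⟨⟨f, x⟩, rfl⟩
    obtain ⟨e, he, s, rfl⟩ := hF f
    have hoe : IsOpenEmbedding (c ∘ Prod.map e (id : ℝ → ℝ)) :=
      hc.comp (he.prodMap IsOpenEmbedding.id)
    refine ⟨range (c ∘ Prod.map e (id : ℝ → ℝ)), hoe.isOpen_range, ⟨(s, x), rfl⟩, ?_⟩
    exact ⟨(hoe.isEmbedding.toHomeomorph.symm).trans P.symm⟩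
  obtain ⟨u, v, w⟩ := z
  cases w with
  | false => exact key (c0 φ) (isOpenEmbedding_c0 hφ.cont) ⟨(u, v), rfl⟩
  | true => exact key (c1 φ v) (isOpenEmbedding_c1 hφ.cont v) ⟨(u, 0), by simp [c1]⟩

end Pool.Agent.Work.MP_43aaf1_gt
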