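import Pool.Agent.Work.MP_43aaf1_gt.Homog

set_option autoImplicit false
set_option linter.unusedSectionVars false

open Topology Filter Set

namespace Pool.Agent.Work.MP_43aaf1_gt

/-- the amplitude function -/
noncomputable def amp (u : ℝ) : ℝ := Real.log (1 + u) * Real.sin (Real.pi * u)

/-- the twist, as a function of `ℓ = -log |t|` -/
noncomputable def bfun (l : ℝ) : ℝ := amp (Real.log (max 1 l) / Real.log 3)

/-- the twist function -/
noncomputable def tw (t : ℝ) : ℝ := bfun (-Real.log t)

lemma log3_pos : 0 < Real.log 3 := Real.log_pos (by norm_num)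

lemma u_nonneg (l : ℝ) : 0 ≤ Real.log (max 1 l) / Real.log 3 :=
  div_nonneg (Real.log_nonneg (le_max_left _ _)) log3_pos.le

lemma continuous_bfun : Continuous bfun := by
  have h1 : Continuous fun l : ℝ => Real.log (max 1 l) / Real.log 3 := by
    refine Continuous.div_const ?_ _
    refine Continuous.log (by fun_prop) (fun x => ?_)
    have : (1:ℝ) ≤ max 1 x := le_max_left _ _
    linarith
  unfold bfun amp
  refine Continuous.mul ?_ (Real.continuous_sin.comp (continuous_const.mul h1))
  refine Continuous.log (continuous_const.add h1) (fun x => ?_)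
  have := u_nonneg x
  linarith

lemma tw_cont : ContinuousOn tw {0}ᶜ := by
  unfold tw
  exact continuous_bfun.comp_continuousOn Real.continuousOn_log.neg

lemma amp_lip {u v : ℝ} (hu : 0 ≤ u) (hv : 0 ≤ v) :
    |amp v - amp u| ≤ |v - u| * (1 + Real.pi * u) := by
  have h1 : |Real.log (1 + v) - Real.log (1 + u)| ≤ |v - u| := by
    rw [abs_le]
    constructor
    · have h := Real.log_le_sub_one_of_pos (x := (1 + u) / (1 + v)) (by positivity)
      rw [Real.log_div (by positivity) (by positivity)] at h
      have h2 : (1 + u) / (1 + v) - 1 ≤ |v - u| := by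
        rw [div_sub_one (by positivity), div_le_iff₀ (by positivity)]
        have h3 := neg_abs_le (v - u)
        have h4 := abs_nonneg (v - u)
        nlinarith
      linarith
    · have h := Real.log_le_sub_one_of_pos (x := (1 + v) / (1 + u)) (by positivity)
      rw [Real.log_div (by positivity) (by positivity)] at h
      have h2 : (1 + v) / (1 + u) - 1 ≤ |v - u| := by
        rw [div_sub_one (by positivity), div_le_iff₀ (by positivity)]
        have h3 := le_abs_self (v - u)
        have h4 := abs_nonneg (v - u)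
        nlinarith
      linarith
  have h2 : |Real.sin (Real.pi * v) - Real.sin (Real.pi * u)| ≤ Real.pi * |v - u| := by
    have h := Real.lipschitzWith_sin.dist_le_mul (Real.pi * v) (Real.pi * u)
    rw [Real.dist_eq, Real.dist_eq, ← mul_sub, abs_mul, abs_of_pos Real.pi_pos] at h
    simpa using h
  have h3 : |Real.sin (Real.pi * v)| ≤ 1 := Real.abs_sin_le_one _
  have h4 : 0 ≤ Real.log (1 + u) := Real.log_nonneg (by linarith)
  have h5 : Real.log (1 + u) ≤ u := by
    have := Real.log_le_sub_one_of_pos (x := 1 + u) (by positivity)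
    linarith
  have h6 : amp v - amp u = (Real.log (1 + v) - Real.log (1 + u)) * Real.sin (Real.pi * v)
      + Real.log (1 + u) * (Real.sin (Real.pi * v) - Real.sin (Real.pi * u)) := by
    unfold amp; ring
  rw [h6]
  refine (abs_add_le _ _).trans ?_
  rw [abs_mul, abs_mul, abs_of_nonneg h4]
  calc _ ≤ |v - u| * 1 + u * (Real.pi * |v - u|) := by
        gcongr
    _ = _ := by ring

lemma bfun_slow {ι : Type} {l : Filter ι} {a b : ι → ℝ} (ha : Tendsto a l atTop) {K : ℝ}
    (hab : ∀ᶠ t in l, |b t - a t| ≤ K) :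
    Tendsto (fun t => bfun (b t) - bfun (a t)) l (𝓝 0) := by
  have hK : ∀ᶠ t in l, 0 ≤ K := hab.mono fun t ht => (abs_nonneg _).trans ht
  -- the bounding function
  have hlim : Tendsto (fun x : ℝ => 2 * K / Real.log 3 * (1 / x) +
      2 * K * Real.pi / (Real.log 3) ^ 2 * (Real.log x / x)) atTop (𝓝 0) := by
    have h1 : Tendsto (fun x : ℝ => 1 / x) atTop (𝓝 0) := by
      simpa using tendsto_inv_atTop_zero
    have h2 : Tendsto (fun x : ℝ => Real.log x / x) atTop (𝓝 0) := by
      simpa using Real.isLittleO_log_id_atTop.tendsto_div_nhds_zero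
    simpa using (h1.const_mul (2 * K / Real.log 3)).add
      (h2.const_mul (2 * K * Real.pi / (Real.log 3) ^ 2))
  refine squeeze_zero_norm' ?_ (hlim.comp ha)
  filter_upwards [hab, hK, ha.eventually_ge_atTop 2, ha.eventually_ge_atTop (2 * K)]
    with t ht hK0 h2 h2K
  have hb : a t / 2 ≤ b t := by
    have := (abs_le.1 ht).1
    linarith
  have ha0 : 0 < a t := by linarith
  have hb0 : 0 < b t := by linarith
  have hma : max 1 (a t) = a t := max_eq_right (by linarith)
  have hmb : max 1 (b t) = b t := max_eq_right (by linarith)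
  have hl3 := log3_pos
  have hlog : |Real.log (b t) - Real.log (a t)| ≤ 2 * K / a t := by
    rw [abs_le]
    constructor
    · have h := Real.log_le_sub_one_of_pos (x := a t / b t) (by positivity)
      rw [Real.log_div (by positivity) (by positivity)] at h
      have h2 : a t / b t - 1 ≤ 2 * K / a t := by
        rw [div_sub_one (by positivity), div_le_div_iff₀ (by positivity) (by positivity)]
        have h3 := (abs_le.1 ht).1
        nlinarith
      linarith
    · have h := Real.log_le_sub_one_of_pos (x := b t / a t) (by positivity)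
      rw [Real.log_div (by positivity) (by positivity)] at h
      have h2 : b t / a t - 1 ≤ 2 * K / a t := by
        rw [div_sub_one (by positivity)]
        gcongr
        have h3 := (abs_le.1 ht).2
        linarith
      linarith
  have hlip := amp_lip (u_nonneg (a t)) (u_nonneg (b t))
  rw [hma, hmb, ← sub_div, abs_div, abs_of_pos hl3] at hlip
  simp only [bfun, hma, hmb, Real.norm_eq_abs, Function.comp]
  refine hlip.trans ?_
  have h0 : 0 ≤ Real.log (a t) := Real.log_nonneg (by linarith)
  calc |Real.log (b t) - Real.log (a t)| / Real.log 3 * (1 + Real.pi * (Real.log (a t) / Real.log 3))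
      ≤ (2 * K / a t) / Real.log 3 * (1 + Real.pi * (Real.log (a t) / Real.log 3)) := by
        have hpi := Real.pi_pos
        gcongr
    _ = _ := by
        field_simp

lemma tendsto_neg_log : Tendsto (fun t : ℝ => -Real.log t) (𝓝[≠] 0) atTop :=
  tendsto_neg_atBot_atTop.comp Real.tendsto_log_nhdsNE_zero

lemma cube_surjective : Function.Surjective (fun t : ℝ => t ^ 3) := by
  have hc : Continuous (fun t : ℝ => t ^ 3) := by fun_prop
  have h1 : Tendsto (fun t : ℝ => t ^ 3) atTop atTop := tendsto_pow_atTop (by norm_num)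
  refine hc.surjective h1 ?_
  have h2 := (tendsto_neg_atTop_atBot.comp (h1.comp tendsto_neg_atBot_atTop))
  refine h2.congr (fun t => ?_)
  simp only [Function.comp]
  ring

/-- cubing, as a homeomorphism of the line -/
noncomputable def cube : ℝ ≃ₜ ℝ :=
  (StrictMono.orderIsoOfSurjective (fun t : ℝ => t ^ 3) (Odd.strictMono_pow (by decide))
    cube_surjective).toHomeomorph

lemma cube_apply (t : ℝ) : cube t = t ^ 3 := rfl

lemma amp_add_one (u : ℝ) (hu : 0 ≤ u) : |amp (1 + u) + amp u| ≤ 1 / (1 + u) := by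
  have h1 : amp (1 + u) + amp u = Real.sin (Real.pi * u) *
      (Real.log (1 + u) - Real.log (1 + (1 + u))) := by
    unfold amp
    have : Real.sin (Real.pi * (1 + u)) = - Real.sin (Real.pi * u) := by
      rw [mul_add, mul_one, add_comm, Real.sin_add_pi]
    rw [this]; ring
  rw [h1, abs_mul]
  have h2 : |Real.log (1 + u) - Real.log (1 + (1 + u))| ≤ 1 / (1 + u) := by
    have h := Real.log_le_sub_one_of_pos (x := (1 + (1 + u)) / (1 + u)) (by positivity)
    rw [Real.log_div (by positivity) (by positivity)] at h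
    have h3 : Real.log (1 + u) ≤ Real.log (1 + (1 + u)) :=
      Real.log_le_log (by positivity) (by linarith)
    rw [abs_sub_comm, abs_of_nonneg (by linarith)]
    have h4 : (1 + (1 + u)) / (1 + u) - 1 = 1 / (1 + u) := by
      field_simp; ring
    linarith
  calc _ ≤ 1 * (1 / (1 + u)) := mul_le_mul (Real.abs_sin_le_one _) h2 (abs_nonneg _) zero_le_one
    _ = _ := one_mul _

lemma tw_cube : Tendsto (fun t => tw (cube t) + tw t) (𝓝[≠] 0) (𝓝 0) := by
  have hlim : Tendsto (fun l : ℝ => 1 / (1 + Real.log l / Real.log 3)) atTop (𝓝 0) := by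
    have h1 : Tendsto (fun l : ℝ => 1 + Real.log l / Real.log 3) atTop atTop :=
      tendsto_atTop_add_const_left _ _ (Real.tendsto_log_atTop.atTop_div_const log3_pos)
    simpa [Function.comp_def] using tendsto_inv_atTop_zero.comp h1
  refine squeeze_zero_norm' ?_ (hlim.comp tendsto_neg_log)
  filter_upwards [tendsto_neg_log.eventually_ge_atTop 1] with t ht
  have h3 := log3_pos
  have e1 : -Real.log (t ^ 3) = 3 * (-Real.log t) := by
    rw [Real.log_pow]; push_cast; ring
  have m1 : max 1 (-Real.log t) = -Real.log t := max_eq_right ht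
  have m2 : max 1 (3 * (-Real.log t)) = 3 * (-Real.log t) := max_eq_right (by linarith)
  have hpos : 0 < -Real.log t := by linarith
  have e2 : Real.log (3 * (-Real.log t)) / Real.log 3 = 1 + Real.log (-Real.log t) / Real.log 3 := by
    rw [Real.log_mul (by norm_num) hpos.ne']
    field_simp
  simp only [tw, bfun, cube_apply, Real.norm_eq_abs, Function.comp]
  rw [e1, m1, m2, e2]
  exact amp_add_one _ (div_nonneg (Real.log_nonneg ht) h3.le)

lemma tw_slow (x : ℝ) (hx : x ≠ 0) :
    Tendsto (fun t => tw (cube (x + t) - cube x) - tw t) (𝓝[≠] 0) (𝓝 0) := by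
  have hq : Tendsto (fun t : ℝ => Real.log (3 * x ^ 2 + 3 * x * t + t ^ 2)) (𝓝[≠] 0)
      (𝓝 (Real.log (3 * x ^ 2))) := by
    have hc : ContinuousAt (fun t : ℝ => Real.log (3 * x ^ 2 + 3 * x * t + t ^ 2)) 0 := by
      refine ContinuousAt.log (by fun_prop) ?_
      simp [hx]
    have := hc.tendsto
    simp only [mul_zero, add_zero, ne_eq, OfNat.ofNat_ne_zero, not_false_eq_true,
      zero_pow] at this
    exact this.mono_left nhdsWithin_le_nhds
  have hq0 : ∀ᶠ t : ℝ in 𝓝[≠] 0, 3 * x ^ 2 + 3 * x * t + t ^ 2 ≠ 0 := by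
    have hc : ContinuousAt (fun t : ℝ => 3 * x ^ 2 + 3 * x * t + t ^ 2) 0 := by fun_prop
    exact (hc.eventually_ne (by simp [hx])).filter_mono nhdsWithin_le_nhds
  have hb : ∀ᶠ t : ℝ in 𝓝[≠] 0,
      |(-Real.log (cube (x + t) - cube x)) - (-Real.log t)| ≤ |Real.log (3 * x ^ 2)| + 1 := by
    have h1 : ∀ᶠ t : ℝ in 𝓝[≠] 0,
        |Real.log (3 * x ^ 2 + 3 * x * t + t ^ 2)| < |Real.log (3 * x ^ 2)| + 1 :=
      hq.abs.eventually_lt_const (by linarith)
    filter_upwards [h1, hq0, self_mem_nhdsWithin] with t h2 h3 h4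
    have h5 : cube (x + t) - cube x = t * (3 * x ^ 2 + 3 * x * t + t ^ 2) := by
      simp only [cube_apply]; ring
    have h4' : t ≠ 0 := h4
    rw [h5, Real.log_mul h4' h3]
    have h6 : -(Real.log t + Real.log (3 * x ^ 2 + 3 * x * t + t ^ 2)) - -Real.log t
        = - Real.log (3 * x ^ 2 + 3 * x * t + t ^ 2) := by ring
    rw [h6, abs_neg]
    exact h2.le
  exact bfun_slow tendsto_neg_log hb

lemma tw_surj (f ε : ℝ) (hε : 0 < ε) : ∃ t, t ≠ 0 ∧ |t| < ε ∧ tw t = f := by
  -- points `t = exp (- 3 ^ v)`
  have h3 := log3_pos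
  have hval : ∀ v : ℝ, 0 ≤ v → tw (Real.exp (-Real.exp (v * Real.log 3))) = amp v := by
    intro v hv
    have h1 : (1:ℝ) ≤ Real.exp (v * Real.log 3) := Real.one_le_exp (by positivity)
    simp only [tw, bfun, Real.log_exp, neg_neg, max_eq_right h1]
    rw [mul_div_assoc, div_self h3.ne', mul_one]
  have hsmall : Tendsto (fun v : ℝ => Real.exp (-Real.exp (v * Real.log 3))) atTop (𝓝 0) := by
    refine Real.tendsto_exp_atBot.comp (tendsto_neg_atTop_atBot.comp ?_)
    exact Real.tendsto_exp_atTop.comp (tendsto_id.atTop_mul_const h3)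
  obtain ⟨N, hN⟩ := (hsmall.eventually_lt_const hε).exists_forall_of_atTop
  obtain ⟨n, hn⟩ := exists_nat_ge (max N (Real.exp |f|))
  have hnN : N ≤ n := (le_max_left _ _).trans hn
  have hnf : Real.exp |f| ≤ n := (le_max_right _ _).trans hn
  have hamp : Continuous fun v : ℝ => Real.sin (Real.pi * v) := by fun_prop
  have hn0 : (0:ℝ) ≤ n := Nat.cast_nonneg n
  have ha : amp (2 * n + 1 / 2) ≥ |f| := by
    have hs : Real.sin (Real.pi * (2 * n + 1 / 2)) = 1 := by
      have : Real.pi * (2 * n + 1 / 2) = Real.pi / 2 + n * (2 * Real.pi) := by ring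
      rw [this, Real.sin_add_nat_mul_two_pi, Real.sin_pi_div_two]
    unfold amp
    rw [hs, mul_one, ge_iff_le, Real.le_log_iff_exp_le (by positivity)]
    linarith
  have hb : amp (2 * n + 3 / 2) ≤ -|f| := by
    have hs : Real.sin (Real.pi * (2 * n + 3 / 2)) = -1 := by
      have : Real.pi * (2 * n + 3 / 2) = (Real.pi / 2 + Real.pi) + n * (2 * Real.pi) := by ring
      rw [this, Real.sin_add_nat_mul_two_pi, Real.sin_add_pi, Real.sin_pi_div_two]
    unfold amp
    rw [hs, mul_neg_one, neg_le_neg_iff, Real.le_log_iff_exp_le (by positivity)]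
    linarith
  have hcont : ContinuousOn amp (Icc (2 * (n:ℝ) + 1 / 2) (2 * n + 3 / 2)) := by
    unfold amp
    refine ContinuousOn.mul ?_ hamp.continuousOn
    refine ContinuousOn.log (by fun_prop) (fun x hx => ?_)
    have := hx.1
    have h0 : 0 < 1 + x := by linarith
    exact h0.ne'
  have hmem : f ∈ Icc (amp (2 * n + 3 / 2)) (amp (2 * n + 1 / 2)) :=
    ⟨hb.trans (neg_abs_le f), (le_abs_self f).trans ha⟩
  obtain ⟨v, hv, hvf⟩ := intermediate_value_Icc' (by linarith) hcont hmem
  have hv0 : 0 ≤ v := by linarith [hv.1]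
  refine ⟨Real.exp (-Real.exp (v * Real.log 3)), (Real.exp_pos _).ne', ?_, ?_⟩
  · rw [abs_of_pos (Real.exp_pos _)]
    exact hN v (by linarith [hv.1])
  · rw [hval v hv0, hvf]

lemma goodTwist_tw : GoodTwist tw where
  cont := tw_cont
  surj := tw_surj
  ex_swap := ⟨cube, by simp [cube_apply], tw_cube, tw_slow⟩

/-- Pushing the twist forward along a continuous surjective homomorphism. -/
lemma GoodTwist.map {F : Type} [AddCommGroup F] [TopologicalSpace F] [IsTopologicalAddGroup F]
    {φ : ℝ → ℝ} (hφ : GoodTwist φ) (p : ℝ →+ F) (hp : Continuous p)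
    (hs : Function.Surjective p) : GoodTwist (fun t => p (φ t)) where
  cont := hp.comp_continuousOn hφ.cont
  surj := by
    intro f ε hε
    obtain ⟨r, rfl⟩ := hs f
    obtain ⟨t, h1, h2, h3⟩ := hφ.surj r ε hε
    exact ⟨t, h1, h2, by rw [h3]⟩
  ex_swap := by
    obtain ⟨h, h0, K1, K2⟩ := hφ.ex_swap
    refine ⟨h, h0, ?_, ?_⟩
    · have := (hp.tendsto 0).comp K1
      simpa [Function.comp_def] using this
    · intro x hx
      have := (hp.tendsto 0).comp (K2 x hx)
      simpa [Function.comp_def] using this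

end Pool.Agent.Work.MP_43aaf1_gt
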